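import Pool.Agent.Helper61.FN.Goals
import Pool.Agent.Helper61.FN.GoalsC

set_option autoImplicit false

namespace Pool.Agent.Helper35.FN

open Finset Pool.Agent.Helper61.FN

theorem goalCFN (hP : G_PLC) (hN : G_NRM) (hC : G_CCL) : G_CFN := by
  intro F _ _ _ hF p q mu ep lam hp hl
  by_contra hinf
  have hm : ∀ j : Fin 20, ∑ e, mC j e = -1 := by decide
  obtain ⟨k, _, _, u, ξ, hu⟩ := hP F (Fin 6) (Fin 20) mC (cC p q mu ep) (dC p q mu ep) lam hl hm hinf
  have p1 := hp.p1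
  have q1 := hp.q1
  have m0 := hp.mu0
  have h1 := hp.ph0
  have h2 := hp.ch0
  have p0 : 0 < p := by linarith
  have q0 : 0 < q := by linarith
  have hd : ∀ e, 0 < dC p q mu ep e := by
    intro e
    fin_cases e <;> simp [dC] <;> positivity
  have hs : ∀ e : Fin 6, ∃ j, mC j = Pi.single e (-1) := by decide
  obtain ⟨v, M, hv⟩ := hN F (Fin 6) (Fin 20) k mC (cC p q mu ep) (dC p q mu ep) lam u ξ hm hd hl hs hu
  exact hC F k hF p q mu ep lam v M ξ ⟨hp, hv⟩

end Pool.Agent.Helper35.FN
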