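import Pool.Agent.Helper61.FN.GoalsC

set_option autoImplicit false

namespace Pool.Agent.Helper35.FN

open Finset Pool.Agent.Helper61.FN

theorem goalCR : G_CR := by
  intro F k _ _ _ _ _ p q mu ep lam v M ξ h h2 h1 h0 h4
  have hl := h.nrm.ld0 (2 : Fin 6)
  have n0 := h.nrm.ne 0
  have n1 := h.nrm.ne 1
  have n2 := h.nrm.ne 2
  have hp := h.par.p1
  have hq := h.par.q1
  have hph := h.par.ph0
  have p0 : p ≠ 0 := by intro hc; rw [hc] at hp; exact absurd hp (by norm_num)
  have P0 : algebraMap F k p ≠ 0 := am_ne p0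
  have H0 : algebraMap F k p + algebraMap F k ep ≠ 0 := by
    rw [← map_add]
    exact am_ne hph.ne'
  simp [Fin.sum_univ_succ, gr6, mC, cC, mon, Fin.prod_univ_succ, h2, h1, h0.ne', h4.ne'] at hl
  have e1 : algebraMap F k (2 * (p + q + ep)) * (ξ 0 * ξ 1) =
      algebraMap F k q * (ξ 0 ^ 2 + ξ 1 ^ 2) := by
    simp only [map_mul, map_add, map_ofNat] at hl ⊢
    field_simp at hl
    rw [mul_zero] at hl
    have hl2 := (mul_eq_zero.1 hl).resolve_left (mul_ne_zero P0 H0)
    linear_combination (-1 : k) * hl2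
  refine ⟨e1, fun hc ↦ ?_⟩
  have e2 : ξ 1 = -ξ 0 := by linear_combination hc
  rw [e2] at e1
  have e3 : algebraMap F k (2 * (p + 2 * q + ep)) * ξ 0 ^ 2 = 0 := by
    simp only [map_mul, map_add, map_ofNat] at e1 ⊢
    linear_combination (-1 : k) * e1
  have e4 : (2 * (p + 2 * q + ep)) ≠ 0 := by
    have : 0 < p + 2 * q + ep := by linarith
    positivity
  exact mul_ne_zero (am_ne e4) (pow_ne_zero 2 n0) e3

end Pool.Agent.Helper35.FN
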