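import Pool.Agent.Helper61.FN.GoalsC

set_option autoImplicit false

namespace Pool.Agent.Helper35.FN

open Finset Pool.Agent.Helper61.FN

theorem goalCST (hR : G_CR) : G_CST := by
  intro F k _ _ _ _ _ p q mu ep lam v M ξ h h2 h1 h0 h4 h5
  obtain ⟨-, hx⟩ := hR F k p q mu ep lam v M ξ h h2 h1 h0 h4
  have ht := h.tri
  obtain ⟨-, ⟨t1, t2, t3⟩, -⟩ := ht
  have hl := h.nrm.ld0 (4 : Fin 6)
  have n0 := h.nrm.ne 0
  have n1 := h.nrm.ne 1
  have n4 := h.nrm.ne 4
  have n5 := h.nrm.ne 5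
  have hp := h.par.p1
  have hq := h.par.q1
  have hm := h.par.mu0
  have p0 : p ≠ 0 := by intro hc; rw [hc] at hp; exact absurd hp (by norm_num)
  have q0 : q ≠ 0 := by intro hc; rw [hc] at hq; exact absurd hq (by norm_num)
  have P0 : algebraMap F k p ≠ 0 := am_ne p0
  have Q0 : algebraMap F k q ≠ 0 := am_ne q0
  have M0 : algebraMap F k mu ≠ 0 := am_ne hm.ne'
  by_contra hc
  have h3 : v 0 = v 4 + v 5 ∨ v 4 = v 0 + v 5 ∨ v 5 = v 0 + v 4 := by omega
  simp [Fin.sum_univ_succ, gr6, mC, cC, mon, Fin.prod_univ_succ, h2, h1, h0.ne', h4.ne'] at hl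
  rcases h3 with h3 | h3 | h3
  · have c1 : v 0 + -v 4 + -v 5 = 0 := by omega
    have c2 : ¬ (-v 0 + v 4 + -v 5 = 0) := by omega
    have c3 : ¬ (-v 0 + -v 4 + v 5 = 0) := by omega
    simp only [c1, c2, c3, if_true, if_false, zero_add, add_zero] at hl
    field_simp at hl
    simp only [mul_zero] at hl
    exact hx ((mul_eq_zero.1 hl).resolve_left (mul_ne_zero (mul_ne_zero P0 Q0) M0))
  · have c1 : ¬ (v 0 + -v 4 + -v 5 = 0) := by omega
    have c2 : (-v 0 + v 4 + -v 5 = 0) := by omega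
    have c3 : ¬ (-v 0 + -v 4 + v 5 = 0) := by omega
    simp only [c1, c2, c3, if_true, if_false, zero_add, add_zero] at hl
    field_simp at hl
    simp only [mul_zero] at hl
    have hl2 := (mul_eq_zero.1 hl).resolve_left (mul_ne_zero (mul_ne_zero (mul_ne_zero P0 Q0) M0) n4)
    exact hx (by linear_combination (-1 : k) * hl2)
  · have c1 : ¬ (v 0 + -v 4 + -v 5 = 0) := by omega
    have c2 : ¬ (-v 0 + v 4 + -v 5 = 0) := by omega
    have c3 : (-v 0 + -v 4 + v 5 = 0) := by omega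
    simp only [c1, c2, c3, if_true, if_false, zero_add, add_zero] at hl
    field_simp at hl
    simp only [mul_zero] at hl
    have hl2 := (mul_eq_zero.1 hl).resolve_left (mul_ne_zero (mul_ne_zero (mul_ne_zero P0 Q0) M0) n5)
    exact hx (by linear_combination hl2)

end Pool.Agent.Helper35.FN
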